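import Pool.Agent.H.MP_4a5259_an.Main

set_option autoImplicit false

namespace Pool.Agent.Results.MP_6d986f_an.Value

open Pool.Agent.H.MP_4a5259_an Set

/-- finite nonempty sets n ≤ E 0 < E 1 < ... < E (n - 1) of positive integers, n ≥ 1 -/
def Adm (n : ℕ) (E : Fin n → Finset ℕ+) : Prop :=
  1 ≤ n ∧ (∀ i, (E i).Nonempty) ∧ (∀ i, ∀ a ∈ E i, n ≤ (a : ℕ)) ∧
    ∀ i j, i < j → ∀ a ∈ E i, ∀ b ∈ E j, a < b

/-- the implicit Figiel-Johnson equation for N on finitely supported sequences -/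
def FJ (N : (ℕ+ →₀ ℝ) → ℝ) : Prop :=
  ∀ x, IsLUB ({r | ∃ k, r = |x k|} ∪
    {r | ∃ (n : ℕ) (E : Fin n → Finset ℕ+), Adm n E ∧
      r = 1 / 2 * ∑ i, N (x.filter (· ∈ E i))}) (N x)

/-- X is a completion of the finitely supported sequences under a norm with that equation -/
def IsT (X : Type) [NormedAddCommGroup X] [NormedSpace ℝ X] : Prop :=
  CompleteSpace X ∧ ∃ ι : (ℕ+ →₀ ℝ) →ₗ[ℝ] X, DenseRange ι ∧ FJ fun x => ‖ι x‖

/-- separations of infinite subsets of the closed unit ball -/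
def Sep (X : Type) [NormedAddCommGroup X] : Set ℝ :=
  {l | 0 < l ∧ ∃ S : Set X, S.Infinite ∧ S ⊆ Metric.closedBall 0 1 ∧
    ∀ x ∈ S, ∀ y ∈ S, x ≠ y → l ≤ dist x y}

/-- the embedding in the model -/
noncomputable def emb : (ℕ+ →₀ ℝ) →ₗ[ℝ] E := Finsupp.linearCombination ℝ fun k => e k

theorem co_emb (x : ℕ+ →₀ ℝ) (k : ℕ+) : co (emb x) k = x k := by
  simp only [emb, Finsupp.linearCombination_apply, Finsupp.sum, co, map_sum, map_smul]
  have : ∀ j : ℕ+, cl k (e j) = if j = k then 1 else 0 := fun j =>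
    (congrFun (co_e j) k).trans (by simp [Pi.single_apply, eq_comm])
  simp only [this, smul_eq_mul, mul_ite, mul_one, mul_zero, Finset.sum_ite_eq']
  split_ifs with h
  · rfl
  · exact (Finsupp.notMem_support_iff.mp h).symm

theorem co_emb0 (x : ℕ+ →₀ ℝ) : co (emb x) 0 = 0 := by
  simp only [emb, Finsupp.linearCombination_apply, Finsupp.sum, co, map_sum, map_smul]
  refine Finset.sum_eq_zero fun j _ => ?_
  rw [show cl 0 (e j) = 0 from (congrFun (co_e j) 0).trans (Pi.single_eq_of_ne j.ne_zero.symm _),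
    smul_zero]

theorem emb_filter (x : ℕ+ →₀ ℝ) (F : Finset ℕ+) :
    emb (x.filter (· ∈ F)) = P (PNat.val '' F) (emb x) := by
  refine ext_co (funext fun i => ?_)
  rw [co_P]
  rcases Nat.eq_zero_or_pos i with rfl | hi
  · simp [co_emb0, indicator]
  · obtain ⟨k, rfl⟩ : ∃ k : ℕ+, (k : ℕ) = i := ⟨⟨i, hi⟩, rfl⟩
    simp [co_emb, indicator, Finsupp.filter_apply]

theorem fj : FJ fun x => ‖emb x‖ := fun x => by
  classical
  constructor
  · rintro r (⟨k, rfl⟩ | ⟨n, F, ⟨-, -, h3, h4⟩, rfl⟩)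
    · rw [← co_emb]; exact co_le _ _
    refine le_of_forall_pos_le_add fun ε hε => ?_
    have hδ : 0 < ε / (n + 1) := by positivity
    choose g hg hg' using fun j : Fin n => exists_pr (x := P (PNat.val '' F j) (emb x))
      (sub_lt_self _ hδ)
    let G : ℕ → ℕ →₀ ℝ := fun j =>
      if h : j < n then (g ⟨j, h⟩).filter (· ∈ PNat.val '' F ⟨j, h⟩) else 0
    have k : ∀ j (h : j < n) u, G j u ≠ 0 → ∃ a ∈ F ⟨j, h⟩, (a : ℕ) = u := fun j h u hu => by
      by_contra hc
      exact hu (by simp only [G, dif_pos h]; exact Finsupp.filter_apply_neg _ _ hc)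
    have h1 := pr_le (W.comb (Finset.range n) G
      (fun j hj => by
        simp only [G, dif_pos (Finset.mem_range.mp hj)]
        exact (hg _).filter _)
      (fun j hj l hl hjl u hu v hv => by
        obtain ⟨a, a1, rfl⟩ := k j (Finset.mem_range.mp hj) u hu
        obtain ⟨b, b1, rfl⟩ := k l (Finset.mem_range.mp hl) v hv
        exact h4 _ _ (by exact hjl) a a1 b b1)
      fun j hj u hu => by
        obtain ⟨a, a1, rfl⟩ := k j (Finset.mem_range.mp hj) u hu
        simpa using h3 _ a a1) (emb x)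
    rw [map_smul, map_sum, smul_eq_mul, Finset.sum_range] at h1
    have h2 := Finset.sum_le_sum fun j (_ : j ∈ Finset.univ) => (hg' j).le
    simp only [co_P, pr_ind, Finset.sum_sub_distrib, Finset.sum_const, nsmul_eq_mul,
      Finset.card_univ, Fintype.card_fin] at h2
    simp only [G, Fin.is_lt, dif_pos, Fin.eta] at h1
    have h5 : n * (ε / (n + 1)) ≤ ε := by
      rw [← mul_div_assoc, div_le_iff₀ (by positivity)]
      nlinarith
    simp only [emb_filter]
    linarith
  · intro C hC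
    have c1 : ∀ k, |co (emb x) k| ≤ C := fun k => by
      rcases Nat.eq_zero_or_pos k with rfl | hk
      · rw [co_emb0, abs_zero]
        exact (abs_nonneg _).trans (hC (Or.inl ⟨1, rfl⟩))
      · obtain ⟨k, rfl⟩ : ∃ j : ℕ+, (j : ℕ) = k := ⟨⟨k, hk⟩, rfl⟩
        rw [co_emb]
        exact hC (Or.inl ⟨k, rfl⟩)
    refine norm_le fun g hg => ?_
    cases hg with
    | pos k => rw [pr_single, one_mul]; exact (abs_le.mp (c1 k)).2
    | neg k => rw [pr_single]; linarith [(abs_le.mp (c1 k)).1]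
    | comb K g hW hsep hN =>
      let K' := K.filter fun j => g j ≠ 0
      have hle : K'.card ≤ K.card := Finset.card_filter_le _ _
      rw [map_smul, map_sum, smul_eq_mul, ← Finset.sum_filter_of_ne (p := fun j => g j ≠ 0)
        fun j _ h h0 => h (by rw [h0, map_zero])]
      rcases K'.eq_empty_or_nonempty with h | h
      · simp only [show K.filter (fun j => g j ≠ 0) = ∅ from h, Finset.sum_empty, mul_zero]
        exact (abs_nonneg _).trans (c1 0)
      have hp : 1 ≤ K'.card := h.card_pos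
      let σ := K'.orderEmbOfFin rfl
      have s1 : ∀ i, σ i ∈ K ∧ g (σ i) ≠ 0 := fun i =>
        Finset.mem_filter.mp (K'.orderEmbOfFin_mem rfl i)
      let F : Fin K'.card → Finset ℕ+ := fun i =>
        (g (σ i)).support.preimage PNat.val (PNat.coe_injective.injOn)
      have f1 : ∀ i (a : ℕ+), a ∈ F i ↔ g (σ i) a ≠ 0 := fun i a => by simp [F]
      have f2 : ∀ i u, g (σ i) u ≠ 0 → ∃ a ∈ F i, (a : ℕ) = u := fun i u hu =>
        ⟨⟨u, by have := hN _ (s1 i).1 u hu; omega⟩, (f1 _ _).mpr hu, rfl⟩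
      refine le_trans ?_ (hC (Or.inr ⟨K'.card, F, ⟨hp, fun i => ?_,
        fun i a ha => hle.trans (hN _ (s1 i).1 a ((f1 _ _).mp ha)),
        fun i j hij a ha b hb => hsep _ (s1 i).1 _ (s1 j).1 (σ.strictMono hij) a
          ((f1 _ _).mp ha) b ((f1 _ _).mp hb)⟩, rfl⟩))
      · refine mul_le_mul_of_nonneg_left ?_ (by norm_num)
        rw [← Finset.sum_coe_sort K', ← (K'.orderIsoOfFin rfl).toEquiv.sum_comp]
        refine Finset.sum_le_sum fun i _ => ?_
        have := pr_le (hW _ (s1 i).1) (P (PNat.val '' F i) (emb x))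
        rw [co_P, pr_ind, (Finsupp.filter_eq_self_iff _ _).mpr
          (show ∀ u, g (σ i) u ≠ 0 → u ∈ PNat.val '' F i from f2 i)] at this
        simp only [emb_filter]
        exact this
      · obtain ⟨u, hu⟩ := DFunLike.ne_iff.mp (s1 i).2
        obtain ⟨a, ha, -⟩ := f2 i u hu
        exact ⟨a, ha⟩

variable {X : Type} [NormedAddCommGroup X] [NormedSpace ℝ X] {ι : (ℕ+ →₀ ℝ) →ₗ[ℝ] X}

theorem sum_one {n : ℕ} {F : Fin n → Finset ℕ+} (h : Adm n F) (a : ℕ+) :
    ∑ i, ‖ι ((Finsupp.single a 1).filter (· ∈ F i))‖ ≤ ‖ι (Finsupp.single a 1)‖ := by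
  by_cases hc : ∃ i, a ∈ F i
  · obtain ⟨i, hi⟩ := hc
    rw [Finset.sum_eq_single i (fun j _ hj => ?_) (by simp), Finsupp.filter_single_of_pos _ hi]
    rw [Finsupp.filter_single_of_neg, map_zero, norm_zero]
    intro hj'
    rcases lt_or_gt_of_ne hj with hl | hl
    · exact lt_irrefl _ (h.2.2.2 _ _ hl a hj' a hi)
    · exact lt_irrefl _ (h.2.2.2 _ _ hl a hi a hj')
  · push Not at hc
    rw [Finset.sum_eq_zero fun i _ => by
      rw [Finsupp.filter_single_of_neg _ (hc i), map_zero, norm_zero]]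
    exact norm_nonneg _

theorem one (h : FJ fun x => ‖ι x‖) (a : ℕ+) : ‖ι (Finsupp.single a 1)‖ ≤ 1 := by
  have key : ‖ι (Finsupp.single a 1)‖ ≤ max 1 (‖ι (Finsupp.single a 1)‖ / 2) := by
    refine (h _).2 ?_
    rintro r (⟨k, rfl⟩ | ⟨n, F, hF, rfl⟩)
    · refine le_trans ?_ (le_max_left _ _)
      rw [Finsupp.single_apply]
      split_ifs <;> simp
    · exact le_trans (by linarith [sum_one (ι := ι) hF a]) (le_max_right _ _)
  rcases le_max_iff.mp key with h | h <;> linarith [norm_nonneg (ι (Finsupp.single a 1))]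

theorem two (h : FJ fun x => ‖ι x‖) {a b : ℕ+} (hab : a ≠ b) :
    ‖ι (Finsupp.single a 1 + Finsupp.single b 1)‖ ≤ 1 := by
  refine (h _).2 ?_
  rintro r (⟨k, rfl⟩ | ⟨n, F, hF, rfl⟩)
  · simp only [Finsupp.add_apply, Finsupp.single_apply]
    split_ifs with h1 h2
    · exact absurd (h1.trans h2.symm) hab
    all_goals simp
  · have := Finset.sum_le_sum fun i (_ : i ∈ Finset.univ) =>
      norm_add_le (ι ((Finsupp.single a 1).filter (· ∈ F i)))
        (ι ((Finsupp.single b 1).filter (· ∈ F i)))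
    rw [Finset.sum_add_distrib] at this
    simp only [Finsupp.filter_add, map_add]
    linarith [sum_one (ι := ι) hF a, sum_one (ι := ι) hF b, one h a, one h b]

theorem four (h : FJ fun x => ‖ι x‖) (x : ℕ+ →₀ ℝ) (a : Fin 4 → ℕ+) (ha : StrictMono a)
    (h4 : 4 ≤ (a 0 : ℕ)) (hx : ∀ i, |x (a i)| = 1) : 2 ≤ ‖ι x‖ := by
  have h1 := (h x).1 (Or.inr ⟨4, fun i => {a i}, ⟨by norm_num, by simp,
    fun i b hb => h4.trans (by rw [Finset.mem_singleton.mp hb]; exact ha.monotone (Fin.zero_le i)),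
    fun i j hij b hb c hc => by
      rw [Finset.mem_singleton.mp hb, Finset.mem_singleton.mp hc]; exact ha hij⟩, rfl⟩)
  have h2 := Finset.sum_le_sum fun i (_ : i ∈ Finset.univ) =>
    (h (x.filter (· ∈ ({a i} : Finset ℕ+)))).1 (Or.inl ⟨a i, rfl⟩)
  simp only [Finsupp.filter_apply, Finset.mem_singleton, if_true, hx, Finset.sum_const,
    Finset.card_univ, Fintype.card_fin, nsmul_eq_mul] at h1 h2
  norm_num at h1 h2
  linarith

theorem result :
    (∃ (X : Type) (_ : NormedAddCommGroup X) (_ : NormedSpace ℝ X), IsT X) ∧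
    ∀ (X : Type) [NormedAddCommGroup X] [NormedSpace ℝ X], IsT X → IsGreatest (Sep X) 2 := by
  refine ⟨⟨(LinearMap.range emb).topologicalClosure, inferInstance, inferInstance,
    (Submodule.isClosed_topologicalClosure _).completeSpace_coe,
    emb.codRestrict _ fun x => Submodule.le_topologicalClosure _ ⟨x, rfl⟩,
    Subtype.dense_iff.mpr fun y hy => closure_mono ?_ hy, fj⟩, ?_⟩
  · rintro _ ⟨x, rfl⟩
    exact ⟨_, ⟨x, rfl⟩, rfl⟩
  rintro X _ _ ⟨-, ι, -, h⟩
  let y : ℕ+ → X := fun n => ι (Finsupp.single (2 * n + 2) 1 + Finsupp.single (2 * n + 3) 1)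
  have key : ∀ n m, n < m → 2 ≤ dist (y n) (y m) := fun n m hnm => by
    have hn : 0 < (n : ℕ) := n.pos
    have hl : (n : ℕ) < m := hnm
    rw [dist_eq_norm, ← map_sub]
    refine four h _ ![2 * n + 2, 2 * n + 3, 2 * m + 2, 2 * m + 3]
      (Fin.strictMono_iff_lt_succ.mpr fun i => ?_) ?_ fun i => ?_
    · fin_cases i <;> simp [← PNat.coe_lt_coe]
      omega
    · simp
      omega
    · fin_cases i <;> simp [Finsupp.single_apply, ← PNat.coe_inj] <;> split_ifs <;>
        first | omega | simp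
  have key' : ∀ n m, n ≠ m → 2 ≤ dist (y n) (y m) := fun n m hnm => by
    rcases lt_or_gt_of_ne hnm with h | h
    · exact key n m h
    · exact dist_comm (y m) (y n) ▸ key m n h
  refine ⟨⟨two_pos, range y, infinite_range_of_injective fun n m e => ?_, ?_, ?_⟩, ?_⟩
  · by_contra hne
    have := key' n m hne
    rw [e, dist_self] at this
    linarith
  · rintro _ ⟨n, rfl⟩
    exact mem_closedBall_zero_iff.mpr (two h (by simp))
  · rintro _ ⟨n, rfl⟩ _ ⟨m, rfl⟩ hne
    exact key' n m fun e => hne (congrArg y e)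
  · rintro l ⟨-, S, h1, h2, h3⟩
    obtain ⟨a, ha, b, hb, hab⟩ := h1.nontrivial
    have := dist_triangle_right a b 0
    linarith [h3 a ha b hb hab, Metric.mem_closedBall.mp (h2 ha), Metric.mem_closedBall.mp (h2 hb)]

end Pool.Agent.Results.MP_6d986f_an.Value
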